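import Pool.Agent.Run7.h32.GD.Phys
import Pool.Agent.Run7.h782.GD.T1
import Pool.Agent.Run7.h782.GS.P1
import Pool.Agent.Run7.h782.GS.P3
import Pool.Agent.Run7.h782.GS.Step3
import Pool.Agent.Run7.h407.GS.App2
import Pool.Agent.Run7.h835.GG.Dec
import Pool.Agent.Run7.h969.GG.Fin3
import Pool.Agent.Run7.h969.GD.Tgt5
import Pool.Agent.Run7.h308.GS.Q4
import Pool.Agent.Run7.h308.GS.Q5
import Pool.Agent.Run7.h308.GS.Q6

/-!
Every smooth periodic divergence free field `u₀` becomes, after adding waves `w` of arbitrarily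
high frequency, the initial velocity of a global smooth periodic solution of the Navier-Stokes
equations without force, which is steered at once to an arbitrary global smooth solution `U` with
the same mean. In the critical Besov space of order `-1` with indices `∞, 2` the size of `w` is at
most a universal multiple of the viscosity.
-/

set_option autoImplicit false

open MeasureTheory Set
open scoped ContDiff

namespace Pool.Agent.Results.MP_6bf1e5_an.FlowDensity

open H459R3.NS Pool.Agent.Run7.h782.GD Pool.Agent.Run7.h782.GS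

theorem result : ∃ C : ℝ, 0 < C ∧ ∀ ν : ℝ, 0 < ν → ∀ u₀ : V → V, ContDiff ℝ ∞ u₀ → Per u₀ →
    (∀ x, ∑ i, pd i (fun y => u₀ y i) x = 0) →
    ∀ (U : ℝ → V → V) (P : ℝ → V → ℝ), (∀ T, IsSol ν T U P) →
    (∀ i, ∫ x in cube, U 0 x i = ∫ x in cube, u₀ x i) → ∀ δ : ℝ, 0 < δ → ∀ R : ℝ,
    ∃ (u : ℝ → V → V) (p : ℝ → V → ℝ), (∀ T, IsSol ν T u p) ∧
      (∀ k, len k ≤ R → vf (u 0) k = vf u₀ k) ∧
      (∃ h : ℝ → ℝ,
        (∀ t, 0 < t → (∀ x i, |heat t (fun y => u 0 y i - u₀ y i) x| ≤ h t) ∧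
          h t ≤ δ / Real.sqrt t) ∧
        IntegrableOn (fun t => h t ^ 2) (Ioi 0) ∧
        ∫ t in Ioi (0 : ℝ), h t ^ 2
          ≤ C * ν * min ν (∑' k, ‖vf u₀ k - vf (U 0) k‖ / len k)) ∧
      ∀ t, δ ≤ t → ∀ x i, |u t x i - U t x i| ≤ δ :=
  Pool.Agent.Run7.h308.GS.gap
    (Pool.Agent.Run7.h308.GS.stepU
      (Pool.Agent.Run7.h308.GS.stepX stmT1
        (Pool.Agent.Run7.h969.GG.app3 Pool.Agent.Run7.h835.GG.stmDec) stmInt stmProp)
      (step stmT1 Pool.Agent.Run7.h407.GD.stmApp2 stmInt stmProp))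
    Pool.Agent.Run7.h969.GD.stmTg' Pool.Agent.Run7.h32.GD.stmPhys

end Pool.Agent.Results.MP_6bf1e5_an.FlowDensity
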