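import Pool.Agent.Run7.h782.HP.AllStF
import Pool.Agent.Run7.h782.HP.FinStF

/-!
Any past can be joined to any future, along any path: if `v` and `U` are very weak solutions of the
Navier-Stokes equations on the torus (`v` on `(0, T₀)`, `U` global) in the class `⋂ₙ L² L^(2 Qₙ)`
with the same mean, then for all `S ≤ T₀` and `T > S` there is a global very weak solution `u` of
this class with `u = v` until the time `S` and `u = U(· - T)` from the time `T` on, exactly. Between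
`S` and `T` it is smooth except at a sequence of times which accumulates only at `T`, it is
continuous in time (also at the singular times, at `S` if `v` is smooth there, and at `T` if `U` is
smooth near the time `0`) with values in the critical Besov spaces of order `-1` with indices `∞, q`,
`q > 2`, and it follows any given smooth path `w` of divergence free fields: in these spaces uniformly
on `[S + ε, T - ε]`, and `∫ Φ (sup |u - w|) dt ≤ ε` for any convex `Φ` with `Φ x = o(x²)` at infinity.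
-/

set_option autoImplicit false

open MeasureTheory Set Filter Topology
open scoped ContDiff ENNReal ComplexConjugate

namespace Pool.Agent.Results.MP_6bf1e5_an.PastAndFuture

/-- Points and vectors of `ℝ³`, with the maximum norm. -/
abbrev V := Fin 3 → ℝ

/-- Frequencies. -/
abbrev K3 := Fin 3 → ℤ

/-- Complex vectors, with the maximum norm. -/
abbrev C3 := Fin 3 → ℂ

/-- `f` is `1`-periodic in each of the three coordinates. -/
def Per {F : Type*} (f : V → F) : Prop := ∀ (i : Fin 3) (x : V), f (x + Pi.single i 1) = f x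

/-- The period cell. -/
def cube : Set V := Icc 0 1

/-- The partial derivatives. -/
noncomputable def pd (j : Fin 3) (f : V → ℝ) (x : V) : ℝ := fderiv ℝ f x (Pi.single j 1)

/-- The character `exp (2 π i k·x)`. -/
noncomputable def ee (k : K3) (x : V) : ℂ :=
  Complex.exp (2 * Real.pi * Complex.I * ((∑ j, (k j : ℝ) * x j : ℝ) : ℂ))

/-- The Fourier coefficients of a real function. -/
noncomputable def coef (f : V → ℝ) (k : K3) : ℂ := ∫ x in cube, ee (-k) x * ((f x : ℝ) : ℂ)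

/-- The heat flow with the initial value `f` (periodic, real), at the time `r`. -/
noncomputable def heat (r : ℝ) (f : V → ℝ) (x : V) : ℝ :=
  (∑' k : K3, (Real.exp (-(4 * Real.pi ^ 2 * (∑ j, (k j : ℝ) ^ 2) * r)) : ℂ) * coef f k
    * ee k x).re

/-- `c` is the family of the Fourier coefficients of a real divergence free distribution on the
torus. -/
structure Dist (c : K3 → C3) : Prop where
  real : ∀ k i, c (-k) i = conj (c k i)
  divfree : ∀ k, ∑ j, (k j : ℂ) * c k j = 0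
  grow : ∃ (C : ℝ) (m : ℕ), ∀ k, ‖c k‖ ≤ C * (1 + Real.sqrt (∑ j, (k j : ℝ) ^ 2)) ^ m

/-- The value at the smooth periodic field `ψ` of the distribution with the coefficients `c`. -/
noncomputable def pairing (c : K3 → C3) (ψ : V → V) : ℝ :=
  ∑ i, (∑' k, c k i * conj (coef (fun x => ψ x i) k)).re

/-- `u` is a very weak solution of the Navier-Stokes equations (viscosity `ν`, no force) on `(0, T)`
with the initial value `c`: measurable, square integrable over `(0, T) × [0,1]³`, divergence free,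
and for all smooth `ψ` with `div ψ = 0` and all smooth `χ` which vanish near `T` and beyond
`χ(0) ⟨c, ψ⟩ + ∫∫ (χ' u·ψ + χ (∑ uᵢ uⱼ ∂ᵢψⱼ + ν u·Δψ)) = 0`. -/
structure VeryWeak (ν T : ℝ) (c : K3 → C3) (u : ℝ → V → V) : Prop where
  meas : ∀ i, AEStronglyMeasurable (fun z : ℝ × V => u z.1 z.2 i)
    (volume.restrict (Ioo 0 T ×ˢ cube))
  sq : ∀ i, IntegrableOn (fun z : ℝ × V => u z.1 z.2 i ^ 2) (Ioo 0 T ×ˢ cube)
  div : ∀ (χ : ℝ → ℝ) (f : V → ℝ), ContDiff ℝ ∞ χ → (∀ t, T ≤ t → χ t = 0) →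
    ContDiff ℝ ∞ f → Per f →
    ∫ z in Ioo 0 T ×ˢ cube, χ z.1 * ∑ i, u z.1 z.2 i * pd i f z.2 = 0
  weak : ∀ (χ : ℝ → ℝ) (ψ : V → V), ContDiff ℝ ∞ χ → (∃ s < T, ∀ t, s ≤ t → χ t = 0) →
    ContDiff ℝ ∞ ψ → Per ψ → (∀ x, ∑ i, pd i (fun y => ψ y i) x = 0) →
    χ 0 * pairing c ψ
      + ∫ z in Ioo 0 T ×ˢ cube, (deriv χ z.1 * (∑ i, u z.1 z.2 i * ψ z.2 i)
        + χ z.1 * (∑ i, ∑ j, u z.1 z.2 i * u z.1 z.2 j * pd i (fun y => ψ y j) z.2
          + ν * ∑ i, u z.1 z.2 i * ∑ j, pd j (pd j (fun y => ψ y i)) z.2)) = 0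

/-- `u` is in `L²((0, T); L^q)`. -/
def InL2Lq (T : ℝ) (u : ℝ → V → V) (q : ℝ) : Prop :=
  ∫⁻ t in Ioo 0 T, (∫⁻ x in cube, ENNReal.ofReal (∑ i, |u t x i| ^ q)) ^ (2 / q) ≠ ⊤

/-- `Φ` is convex and `≥ 0` on `[0, ∞)`, `Φ 0 = 0` and `Φ x = o(x²)` as `x → ∞`. -/
structure Orlicz (Φ : ℝ → ℝ) : Prop where
  zero : Φ 0 = 0
  nonneg : ∀ x, 0 ≤ x → 0 ≤ Φ x
  conv : ConvexOn ℝ (Ici 0) Φ
  small : Tendsto (fun x => Φ x / x ^ 2) atTop (𝓝 0)

/-- `φ` is convex and `≥ 0` on `[0, ∞)`, `φ 0 = 0` and `φ x = o(x²)` as `x → 0`. -/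
structure Gauge (φ : ℝ → ℝ) : Prop where
  zero : φ 0 = 0
  nonneg : ∀ x, 0 ≤ x → 0 ≤ φ x
  conv : ConvexOn ℝ (Ici 0) φ
  small : Tendsto (fun x => φ x / x ^ 2) (𝓝[>] 0) (𝓝 0)

/-- The integral of `φ (√r sup |e^{rΔ} f|) / r` over `r > 0`. (For `φ x = x ^ q` the `q`-th power of
the norm of the homogeneous Besov space of order `-1` with indices `∞, q`.) -/
noncomputable def besov (φ : ℝ → ℝ) (f : V → ℝ) : ℝ≥0∞ :=
  ∫⁻ r in Ioi (0 : ℝ), (⨆ x, ENNReal.ofReal (φ (Real.sqrt r * |heat r f x|))) / ENNReal.ofReal r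

/-- `u` is continuous at the time `s` in the sense of `besov φ`. -/
def IsCts (φ : ℝ → ℝ) (u : ℝ → V → V) (s : ℝ) : Prop :=
  ∀ i, Tendsto (fun t => besov φ (fun x => u t x i - u s x i)) (𝓝 s) (𝓝 0)

/-- `w` is a smooth path of smooth periodic divergence free fields with the mean value `m`. -/
structure SmoothPath (m : V) (w : ℝ → V → V) : Prop where
  smooth : ContDiff ℝ ∞ (fun z : ℝ × V => w z.1 z.2)
  per : ∀ t, Per (w t)
  divfree : ∀ t x, ∑ i, pd i (fun y => w t y i) x = 0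
  mean : ∀ t i, ∫ x in cube, w t x i = m i

/-- `(u, p)` is a smooth periodic solution of the Navier-Stokes equations (viscosity `ν`, no force)
for the times in the open set `I`. -/
structure SolutionOn (ν : ℝ) (I : Set ℝ) (u : ℝ → V → V) (p : ℝ → V → ℝ) : Prop where
  smooth_u : ContDiffOn ℝ ∞ (fun z : ℝ × V => u z.1 z.2) (I ×ˢ univ)
  smooth_p : ContDiffOn ℝ ∞ (fun z : ℝ × V => p z.1 z.2) (I ×ˢ univ)
  per_u : ∀ t ∈ I, Per (u t)
  per_p : ∀ t ∈ I, Per (p t)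
  divfree : ∀ t ∈ I, ∀ x, ∑ i, pd i (fun y => u t y i) x = 0
  momentum : ∀ t ∈ I, ∀ x i,
    deriv (fun s => u s x i) t + ∑ j, u t x j * pd j (fun y => u t y i) x
      = ν * ∑ j, pd j (pd j (fun y => u t y i)) x - pd i (p t) x

/-- `u` joins the past `v` (until the time `S`) to the future `U` (started at the time `T`): `u` is a
very weak solution from `c` on `(0, T')` and in `L²((0, T'); L^(2 Q n))` for all `T'` and `n`; `u = v`
on `(0, S]` and `u(t) = U(t - T)` for all `t ≥ T`; `(u, p)` is a smooth solution for all times in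
`(S, T)` outside the set `F ⊆ [S, T)`, which has only finitely many elements before any `T' < T`; `u`
is continuous in time on `(S, T)` in the sense of distributions and of `besov φ`, in the latter sense
also at `S > 0` if `v` is smooth near `S`, at `S = 0` if the Fourier series `c` of the initial value
converges absolutely, and at `T` if `U` is smooth near the time `0`; `√(t - s) sup |u(t)| → 0` as
`t ↓ s`, for all `s ∈ [S, T)`; and `u` is close to the path `w`: `besov φ (u(t) - w(t)) ≤ ε` for all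
`t ∈ [S + ε, T - ε]`, and `∫ Φ (sup |u(t) - w(t)|) dt ≤ ε` over `(S, T)`. -/
structure Joined (ν : ℝ) (c : K3 → C3) (Q : ℕ → ℝ) (v : ℝ → V → V) (S : ℝ) (w : ℝ → V → V)
    (T : ℝ) (U : ℝ → V → V) (φ Φ : ℝ → ℝ) (ε : ℝ) (F : Set ℝ) (u : ℝ → V → V)
    (p : ℝ → V → ℝ) : Prop where
  weak : ∀ T', 0 < T' → VeryWeak ν T' c u
  lq : ∀ T', 0 < T' → ∀ n, InL2Lq T' u (2 * Q n)
  before : ∀ t ∈ Ioc 0 S, u t = v t
  after : ∀ t, T ≤ t → u t = U (t - T)
  times : F ⊆ Ico S T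
  finite : ∀ T', T' < T → (F ∩ Iic T').Finite
  sol : SolutionOn ν (Ioo S T \ F) u p
  cont : ∀ (i : Fin 3) (ψ : V → ℝ), ContDiff ℝ ∞ ψ → Per ψ →
    ContinuousOn (fun t => ∫ x in cube, u t x i * ψ x) (Ioo S T)
  critical : ∀ s ∈ Ioo S T, IsCts φ u s
  start : ∀ (a b : ℝ) (q : ℝ → V → ℝ), 0 < S → S ∈ Ioo a b → SolutionOn ν (Ioo a b) v q →
    IsCts φ u S
  initial : S = 0 → (Summable fun k => ‖c k‖) → ∀ i,
    Tendsto (fun t => besov φ (fun x => u t x i - (∑' k, c k i * ee k x).re)) (𝓝[>] 0) (𝓝 0)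
  arrival : ∀ (a b : ℝ) (q : ℝ → V → ℝ), (0 : ℝ) ∈ Ioo a b → SolutionOn ν (Ioo a b) U q →
    IsCts φ u T
  small : ∀ s ∈ Ico S T, ∀ δ : ℝ, 0 < δ →
    ∀ᶠ t in 𝓝[>] s, ∀ x i, |u t x i| ≤ δ / Real.sqrt (t - s)
  close : ∀ t ∈ Icc (S + ε) (T - ε), ∀ i, besov φ (fun x => u t x i - w t x i) ≤ ENNReal.ofReal ε
  near : ∫⁻ t in Ioo S T, (⨆ x, ⨆ i, ENNReal.ofReal (Φ |u t x i - w t x i|)) ≤ ENNReal.ofReal ε

theorem vw_iff {ν T : ℝ} {c : K3 → C3} {u : ℝ → V → V} :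
    VeryWeak ν T c u ↔ Pool.Agent.Run7.h782.WQ.Inst.VeryWeak ν T c u :=
  ⟨fun h => ⟨h.meas, h.sq, h.div, h.weak⟩, fun h => ⟨h.meas, h.sq, h.div, h.weak⟩⟩

theorem cts_iff {φ : ℝ → ℝ} {u : ℝ → V → V} {s : ℝ} :
    IsCts φ u s ↔ Pool.Agent.Run7.h782.HP.Bc φ u s := Iff.rfl

theorem ini_iff {φ : ℝ → ℝ} {u : ℝ → V → V} {c : K3 → C3} :
    (∀ i, Tendsto (fun t => besov φ (fun x => u t x i - (∑' k, c k i * ee k x).re)) (𝓝[>] 0)
      (𝓝 0)) ↔ Pool.Agent.Run7.h782.HP.Ba φ c u := Iff.rfl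

theorem close_iff {φ : ℝ → ℝ} {u w : ℝ → V → V} {ε t : ℝ} :
    (∀ i, besov φ (fun x => u t x i - w t x i) ≤ ENNReal.ofReal ε) ↔
      Pool.Agent.Run7.h782.HP.Bd φ ε u w t t := Iff.rfl

theorem result (ν : ℝ) (hν : 0 < ν) (m : V) (c c₁ : K3 → C3) (hc : Dist c)
    (hm : ∀ i, c 0 i = ((m i : ℝ) : ℂ)) (hc₁ : Dist c₁) (hm₁ : ∀ i, c₁ 0 i = ((m i : ℝ) : ℂ))
    (Q : ℕ → ℝ) (hQ : ∀ n, 1 ≤ Q n) (T₀ : ℝ) (hT₀ : 0 < T₀) (v : ℝ → V → V)
    (hv : VeryWeak ν T₀ c v) (hvq : ∀ n, InL2Lq T₀ v (2 * Q n)) (U : ℝ → V → V)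
    (hU : ∀ T', 0 < T' → VeryWeak ν T' c₁ U) (hUq : ∀ T', 0 < T' → ∀ n, InL2Lq T' U (2 * Q n))
    (S T : ℝ) (hS : S ∈ Icc 0 T₀) (hT : S < T) (w : ℝ → V → V) (hw : SmoothPath m w) (φ : ℝ → ℝ)
    (hφ : Gauge φ) (Φ : ℝ → ℝ) (hΦ : Orlicz Φ) (ε : ℝ) (hε : 0 < ε) :
    ∃ (F : Set ℝ) (u : ℝ → V → V) (p : ℝ → V → ℝ), Joined ν c Q v S w T U φ Φ ε F u p := by
  obtain ⟨F, u, p, h, h1, h2, h3, h5, h6, h7, h4⟩ :=
    Pool.Agent.Run7.h782.HP.joinedF Pool.Agent.Run7.h782.HP.stmSteerF hν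
    (c := c) (c₁ := c₁) ⟨hc.real, hc.divfree, hc.grow⟩ hm ⟨hc₁.real, hc₁.divfree, hc₁.grow⟩ hm₁ hQ
    hT₀ (vw_iff.1 hv) hvq (fun T' hT' => vw_iff.1 (hU T' hT')) hUq hS hT (w := w)
    ⟨hw.smooth, hw.per, hw.divfree, hw.mean⟩ (φ := φ) ⟨hφ.zero, hφ.nonneg, hφ.conv, hφ.small⟩
    (Φ := Φ) ⟨hΦ.zero, hΦ.nonneg, hΦ.conv, hΦ.small⟩ hε
  exact ⟨F, u, p, fun T' hT' => vw_iff.2 (h.weak T' hT'), h.lq, h1, h5, h.times,
    h.finite, ⟨h.sol.smooth_u, h.sol.smooth_p, h.sol.per_u, h.sol.per_p, h.sol.divfree,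
      h.sol.momentum⟩, h.cont, fun s hs => cts_iff.2 (h2 s hs),
    fun a b q hS0 hSI hq => cts_iff.2 (h3 a b q hS0 hSI ⟨hq.smooth_u, hq.smooth_p, hq.per_u,
      hq.per_p, hq.divfree, hq.momentum⟩), fun hS0 hcs => ini_iff.2 (h6 hS0 hcs),
    fun a b q h0 hq => cts_iff.2 (h7 a b q h0 ⟨hq.smooth_u, hq.smooth_p, hq.per_u,
      hq.per_p, hq.divfree, hq.momentum⟩), h.small, fun t ht => close_iff.2 (h4 t ht), h.near⟩

end Pool.Agent.Results.MP_6bf1e5_an.PastAndFuture
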