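import Pool.Agent.Run7.h32.Tu.Str
import Pool.Agent.Run7.h32.Tu.Blow3
import Pool.Agent.Run7.h32.Tu.Top
import Pool.Agent.Run7.h32.Tu.Wk

/-!
# The dyadic model of the Navier-Stokes equations on a tree: the regularity threshold

The nodes are the finite words over `D` letters: the root is `[]`, the children of the node `j` are
the nodes `i :: j`, and the generation of `j` is its length `|j|`, so that there are `D ^ n` nodes in
the generation `n`; they stand for the dyadic cubes of the side `2 ^ (-n)` if `D = 2 ^ d`. The model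
(Katz-Pavlović 2005) is

`X_j' = 2^(β (|j|-1)) X_{parent of j}² - 2^(β |j|) X_j ∑_{k child of j} X_k - ν 4^|j| X_j`.

The nonlinear term preserves the energy `∑ X_j²`. The Navier-Stokes equations in the dimension `d`
correspond to `D = 2^d` and `β = 1 + d/2`, that is, `D = 8` and `β = 5/2` for `d = 3`. With `D = 1`
the tree is the chain of the shell model.
-/

set_option autoImplicit false

open MeasureTheory Set

namespace Pool.Agent.Results.MP_6bf1e5_an.TreeThreshold

/-- The right hand side of the dyadic model on the tree. -/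
noncomputable def treeRhs {D : ℕ} (β ν : ℝ) (y : List (Fin D) → ℝ) : List (Fin D) → ℝ
  | [] => -(y [] * ∑ i, y [i]) - ν * y []
  | i :: j => (2 : ℝ) ^ (β * j.length) * y j ^ 2
      - (2 : ℝ) ^ (β * (j.length + 1)) * (y (i :: j) * ∑ k, y (k :: i :: j))
      - ν * 4 ^ (j.length + 1) * y (i :: j)

/-- `X` is a (componentwise) solution on `[0, ∞)` with the initial value `x`. -/
structure IsSolution {D : ℕ} (β ν : ℝ) (x : List (Fin D) → ℝ) (X : List (Fin D) → ℝ → ℝ) :
    Prop where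
  initial : ∀ j, X j 0 = x j
  equation : ∀ j t, 0 ≤ t → HasDerivWithinAt (X j) (treeRhs β ν (fun k => X k t) j) (Ici 0) t

/-- The energy inequality from the time `s`: `X(s)` is square summable and
`∑_{j ∈ F} X_j(t)² + 2 ν ∫_s^t ∑_{j ∈ F} 4^|j| X_j² ≤ ∑ X_j(s)²` for all `t ≥ s` and all finite sets
`F` of nodes. -/
def EnergyInequality {D : ℕ} (ν : ℝ) (X : List (Fin D) → ℝ → ℝ) (s : ℝ) : Prop :=
  Summable (fun j => X j s ^ 2) ∧ ∀ t, s ≤ t → ∀ F : Finset (List (Fin D)),
    ∑ j ∈ F, X j t ^ 2 + 2 * ν * ∫ r in s..t, ∑ j ∈ F, 4 ^ j.length * X j r ^ 2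
      ≤ ∑' j, X j s ^ 2

/-- A Leray-Hopf solution with the initial value `x`: the energy inequality holds from the time
`0` and from almost every positive time. -/
structure IsLerayHopf {D : ℕ} (β ν : ℝ) (x : List (Fin D) → ℝ) (X : List (Fin D) → ℝ → ℝ) :
    Prop where
  solution : IsSolution β ν x X
  energy_zero : EnergyInequality ν X 0
  energy_ae : ∀ᵐ s : ℝ, 0 < s → EnergyInequality ν X s

/-- A weak solution with the initial value `x`: on every bounded time interval the energies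
`∑ X_j(t)²` and the dissipation `∫ ∑ 4^|j| X_j²` are bounded. No energy inequality is assumed. -/
structure IsWeakSolution {D : ℕ} (β ν : ℝ) (x : List (Fin D) → ℝ) (X : List (Fin D) → ℝ → ℝ) :
    Prop where
  solution : IsSolution β ν x X
  bounded : ∀ T, 0 ≤ T → ∃ E, ∀ F : Finset (List (Fin D)),
    (∀ t ∈ Icc 0 T, ∑ j ∈ F, X j t ^ 2 ≤ E) ∧
      ∫ r in (0 : ℝ)..T, ∑ j ∈ F, 4 ^ j.length * X j r ^ 2 ≤ E

/-- `X` decays faster than every exponential in the generation, uniformly on `[τ, ∞)` for every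
`τ > 0`. -/
def SmoothForPositiveTimes {D : ℕ} (X : List (Fin D) → ℝ → ℝ) : Prop :=
  ∀ τ > 0, ∀ r : ℝ, ∃ K, ∀ (j : List (Fin D)) t, τ ≤ t → (2 : ℝ) ^ (r * j.length) * |X j t| ≤ K

/-- `X` is a solution on `[0, T]` with the initial value `x`, and `X_j = O(2^(-s |j|))`
uniformly on `[0, T]`. -/
structure IsBoundedSolution {D : ℕ} (β ν s T : ℝ) (x : List (Fin D) → ℝ)
    (X : List (Fin D) → ℝ → ℝ) : Prop where
  initial : ∀ j, X j 0 = x j
  equation : ∀ j, ∀ t ∈ Icc 0 T,
    HasDerivWithinAt (X j) (treeRhs β ν (fun k => X k t) j) (Icc 0 T) t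
  decay : ∃ K, ∀ j : List (Fin D), ∀ t ∈ Icc 0 T, (2 : ℝ) ^ (s * j.length) * |X j t| ≤ K

open Pool.Agent.Run7.h32.Tr Pool.Agent.Run7.h32.Tu

variable {D : ℕ} {β ν : ℝ} {x : List (Fin D) → ℝ} {X : List (Fin D) → ℝ → ℝ}

lemma rhs_eq (β ν : ℝ) (y : List (Fin D) → ℝ) (j : List (Fin D)) :
    treeRhs β ν y j = trhs β ν y j := by
  cases j with
  | nil =>
    simp only [treeRhs, trhs, inp, ch, List.length_nil, Nat.cast_zero, mul_zero, Real.rpow_zero,
      pow_zero]
    ring
  | cons i j =>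
    simp only [treeRhs, trhs, inp, ch, List.length_cons]
    push_cast
    ring

lemma sol_iff : IsSolution β ν x X ↔ Sol0 β ν x X := by
  constructor
  · intro h
    exact ⟨h.initial, fun j t ht => by
      rw [add_zero, ← rhs_eq]
      exact h.equation j t ht⟩
  · intro h
    exact ⟨h.init, fun j t ht => by
      have := h.ode j t ht
      rw [add_zero] at this
      rw [rhs_eq]
      exact this⟩

lemma ei_iff {s : ℝ} (hν : 0 < ν) (hs : 0 ≤ s) (hX : Sol0 β ν x X) :
    EnergyInequality ν X s ↔ EI ν X s := by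
  constructor
  · intro h
    exact ⟨h.1, fun t ht N => h.2 t ht _⟩
  · intro h
    refine ⟨h.1, fun t ht F => ?_⟩
    have h1 := h.2 t ht (F.sup List.length)
    have hsub : F ⊆ tre D (F.sup List.length) := fun j hj =>
      mem_tre.2 (Finset.le_sup (f := List.length) hj)
    have h2 : ∑ j ∈ F, X j t ^ 2 ≤ ∑ j ∈ tre D (F.sup List.length), X j t ^ 2 :=
      Finset.sum_le_sum_of_subset_of_nonneg hsub fun _ _ _ => sq_nonneg _
    have hc : ∀ F' : Finset (List (Fin D)), IntervalIntegrable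
        (fun r => ∑ j ∈ F', (4 : ℝ) ^ j.length * X j r ^ 2) volume s t := by
      intro F'
      refine ContinuousOn.intervalIntegrable ?_
      rw [uIcc_of_le ht]
      have h : ContinuousOn (fun r => ∑ j ∈ F', (4 : ℝ) ^ j.length * X j r ^ 2) (Icc 0 t) :=
        continuousOn_finsetSum _ fun j _ => continuousOn_const.mul ((hX.cont j).pow 2)
      exact h.mono fun r hr => ⟨hs.trans hr.1, hr.2⟩
    have h3 : ∫ r in s..t, ∑ j ∈ F, (4 : ℝ) ^ j.length * X j r ^ 2
        ≤ ∫ r in s..t, ∑ j ∈ tre D (F.sup List.length), (4 : ℝ) ^ j.length * X j r ^ 2 :=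
      intervalIntegral.integral_mono_on ht (hc _) (hc _) fun r _ =>
        Finset.sum_le_sum_of_subset_of_nonneg hsub fun _ _ _ => by positivity
    have h4 := mul_le_mul_of_nonneg_left h3 (by positivity : 0 ≤ 2 * ν)
    linarith

lemma lh_iff (hν : 0 < ν) : IsLerayHopf β ν x X ↔ LH β ν x X := by
  constructor
  · intro h
    have h1 := sol_iff.1 h.solution
    refine ⟨h1, (ei_iff hν le_rfl h1).1 h.energy_zero, ?_⟩
    filter_upwards [h.energy_ae] with s hs hs0
    exact (ei_iff hν hs0.le h1).1 (hs hs0)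
  · intro h
    refine ⟨sol_iff.2 h.sol, (ei_iff hν le_rfl h.sol).2 h.en0, ?_⟩
    filter_upwards [h.en] with s hs hs0
    exact (ei_iff hν hs0.le h.sol).2 (hs hs0)

lemma cond (hD : 0 < D) (β : ℝ) :
    ((2 : ℝ) ^ β) ^ 2 ≤ D * 64 ↔ β ≤ 3 + Real.logb 2 D / 2 := by
  have hD' : (0 : ℝ) < D := by exact_mod_cast hD
  have h1 : ((2 : ℝ) ^ β) ^ 2 = 2 ^ (2 * β) := by
    rw [mul_comm, Real.rpow_mul two_pos.le]
    norm_num
  have h2 : (D : ℝ) * 64 = 2 ^ (Real.logb 2 D + 6) := by
    rw [Real.rpow_add two_pos, Real.rpow_logb two_pos (by norm_num) hD']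
    norm_num
  rw [h1, h2, Real.rpow_le_rpow_left_iff one_lt_two]
  constructor <;> intro h <;> linarith

lemma cond' (hD : 0 < D) {β s : ℝ} (hs : (β + Real.logb 2 D) / 3 < s) :
    (D : ℝ) * 2 ^ β < ((2 : ℝ) ^ s) ^ 3 := by
  have hD' : (0 : ℝ) < D := by exact_mod_cast hD
  have h1 : ((2 : ℝ) ^ s) ^ 3 = 2 ^ (3 * s) := by
    rw [mul_comm, Real.rpow_mul two_pos.le]
    norm_num
  have h2 : (D : ℝ) * 2 ^ β = 2 ^ (Real.logb 2 D + β) := by
    rw [Real.rpow_add two_pos, Real.rpow_logb two_pos (by norm_num) hD']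
  rw [h1, h2, Real.rpow_lt_rpow_left_iff one_lt_two]
  linarith

/-- Let `D ≥ 1`, `ν > 0` and `β` real.
1. Every square summable real family `x` is the initial value of a Leray-Hopf solution.
2. If `β ≤ 3` then all the weak solutions (no energy inequality is assumed) are smooth for positive
   times.
3. If `β ≤ 3 + log₂(D) / 2`, and if `x` is square summable and `x_j = O(2^(-s |j|))` for some
   `s > max (0, β - 2)`, then there is a Leray-Hopf solution `X` with the energy inequality from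
   every time `t ≥ 0`; it is the only solution with the energy inequality from the time `0`, all the
   bounds `x_j = O(2^(-r |j|))`, `r` real, hold uniformly in time for `X`, and `X` is smooth for
   positive times.
4. If `β > 3 + log₂(D) / 2`, `s > (β + log₂ D) / 3`, `T > 0` and `x ≠ 0` (real, no sign condition)
   then, for all real `M` with `|M|` large, there is no solution `X` on `[0, T]` with the initial
   value `M x` and `X_j = O(2^(-s |j|))` uniformly on `[0, T]`.
5. If `β ≤ 3`, and if `x` is square summable and nonnegative, then there is exactly one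
   componentwise solution, and it is a Leray-Hopf solution. -/
theorem result (D : ℕ) (hD : 0 < D) (β ν : ℝ) (hν : 0 < ν) :
    (∀ x : List (Fin D) → ℝ, Summable (fun j => x j ^ 2) → ∃ X, IsLerayHopf β ν x X) ∧
    (β ≤ 3 → ∀ (x : List (Fin D) → ℝ) (X : List (Fin D) → ℝ → ℝ), IsWeakSolution β ν x X →
      SmoothForPositiveTimes X) ∧
    (β ≤ 3 + Real.logb 2 D / 2 → ∀ (x : List (Fin D) → ℝ) (s : ℝ), 0 < s → β - 2 < s →
      Summable (fun j => x j ^ 2) →
      (∃ K, ∀ j : List (Fin D), (2 : ℝ) ^ (s * j.length) * |x j| ≤ K) →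
      ∃ X, IsLerayHopf β ν x X ∧ (∀ t, 0 ≤ t → EnergyInequality ν X t) ∧
        (∀ Z, IsSolution β ν x Z → EnergyInequality ν Z 0 → ∀ j t, 0 ≤ t → Z j t = X j t) ∧
        (∀ r : ℝ, (∃ K, ∀ j : List (Fin D), (2 : ℝ) ^ (r * j.length) * |x j| ≤ K) →
          ∃ K, ∀ (j : List (Fin D)) t, 0 ≤ t → (2 : ℝ) ^ (r * j.length) * |X j t| ≤ K) ∧
        SmoothForPositiveTimes X) ∧
    (3 + Real.logb 2 D / 2 < β → ∀ s T : ℝ, (β + Real.logb 2 D) / 3 < s → 0 < T →
      ∀ x : List (Fin D) → ℝ, x ≠ 0 → ∃ M₀ : ℝ, 0 < M₀ ∧ ∀ M : ℝ, M₀ ≤ |M| →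
        ¬ ∃ X, IsBoundedSolution β ν s T (fun j => M * x j) X) ∧
    (β ≤ 3 → ∀ x : List (Fin D) → ℝ, Summable (fun j => x j ^ 2) → (∀ j, 0 ≤ x j) →
      ∃ X, IsLerayHopf β ν x X ∧ ∀ Z, IsSolution β ν x Z → ∀ j t, 0 ≤ t → Z j t = X j t) := by
  refine ⟨?_, ?_, ?_, ?_, ?_⟩
  · intro x hx
    obtain ⟨X, hX⟩ := exist_lh β hν hx
    exact ⟨X, (lh_iff hν).2 hX⟩
  · intro hβ x X hX τ hτ r
    refine wk_smooth hD hβ hν (x := x) ⟨sol_iff.1 hX.solution, fun T hT => ?_, fun T hT => ?_⟩ r hτ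
    · obtain ⟨E, hE⟩ := hX.bounded T hT
      exact ⟨E, fun t ht N => (hE _).1 t ht⟩
    · obtain ⟨E, hE⟩ := hX.bounded T hT
      exact ⟨E, fun N => (hE _).2⟩
  · rintro hβ x s hs hs2 hx ⟨K, hK⟩
    obtain ⟨X, hX, hE, hu, hp, hsm⟩ := real hD ((cond hD β).2 hβ) hν hs hs2 hx hK
    refine ⟨X, (lh_iff hν).2 ⟨hX, hE 0 le_rfl, Filter.Eventually.of_forall fun t ht => hE t ht.le⟩,
      fun t ht => (ei_iff hν ht hX).2 (hE t ht), fun Z hZ hZe => ?_, hp,
      fun τ hτ r => hsm τ r hτ⟩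
    have hZ' := sol_iff.1 hZ
    exact hu Z hZ' ((ei_iff hν le_rfl hZ').1 hZe)
  · intro hβ s T hs hT x hx
    have hβ' : D * 64 < ((2 : ℝ) ^ β) ^ 2 := by
      by_contra h
      exact absurd ((cond hD β).1 (not_lt.1 h)) (not_le.2 hβ)
    obtain ⟨j₀, hj₀⟩ : ∃ j, x j ≠ 0 := Function.ne_iff.1 hx
    obtain ⟨M₀, hM₀, h⟩ := blow3 hD hν hβ' (cond' hD hs) hT hj₀
    refine ⟨M₀, hM₀, fun M hM => ?_⟩
    rintro ⟨X, hX⟩
    exact h M X hM hX.initial (fun j t ht => by
      rw [← rhs_eq]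
      exact hX.equation j t ht) hX.decay
  · intro hβ x hx hx0
    obtain ⟨X, hX⟩ := exist_lh β hν hx
    exact ⟨X, (lh_iff hν).2 hX, fun Z hZ => uniq_nn hβ hν hx0 hx hX.sol (sol_iff.1 hZ)⟩

end Pool.Agent.Results.MP_6bf1e5_an.TreeThreshold
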